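import Pool.Agent.H5.W.Defs

/-!
# Products over finite sets of primes
-/

open Finset

namespace Pool.Agent.H5.W

/-- The sum of `1/p` over a dyadic block. -/
lemma block_le (k : ℕ) (hk : 1 ≤ k) :
    ∑ p ∈ (Ioc (2 ^ k) (2 ^ (k + 1))).filter Nat.Prime, 1 / (p : ℝ) ≤ 4 / k := by
  have hk0 : (0 : ℝ) < k := by exact_mod_cast hk
  have hl2 : 0 < Real.log 2 := Real.log_pos (by norm_num)
  have hpos : (0 : ℝ) < 2 ^ k * (k * Real.log 2) := by positivity
  have h1 : ∀ p ∈ (Ioc (2 ^ k) (2 ^ (k + 1))).filter Nat.Prime,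
      1 / (p : ℝ) ≤ Real.log p / (2 ^ k * (k * Real.log 2)) := by
    intro p hp
    rw [mem_filter, mem_Ioc] at hp
    have hp1 : (2 : ℝ) ^ k < p := by exact_mod_cast hp.1.1
    have hp0 : (0 : ℝ) < p := lt_trans (by positivity) hp1
    have hlog : k * Real.log 2 ≤ Real.log p := by
      rw [← Real.log_pow]
      exact Real.log_le_log (by positivity) hp1.le
    rw [div_le_div_iff₀ hp0 hpos, one_mul]
    calc 2 ^ k * (k * Real.log 2) ≤ p * (k * Real.log 2) :=
          mul_le_mul_of_nonneg_right hp1.le (by positivity)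
      _ ≤ p * Real.log p := mul_le_mul_of_nonneg_left hlog hp0.le
      _ = Real.log p * p := mul_comm _ _
  have h2 : ∑ p ∈ (Ioc (2 ^ k) (2 ^ (k + 1))).filter Nat.Prime, Real.log p ≤
      Chebyshev.theta ((2 ^ (k + 1) : ℕ) : ℝ) := by
    unfold Chebyshev.theta
    rw [Nat.floor_natCast]
    apply sum_le_sum_of_subset_of_nonneg
    · intro p hp
      rw [mem_filter, mem_Ioc] at hp ⊢
      exact ⟨⟨by omega, hp.1.2⟩, hp.2⟩
    · intro p hp _
      rw [mem_filter, mem_Ioc] at hp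
      apply Real.log_nonneg
      exact_mod_cast hp.1.1
  have h3 : Chebyshev.theta ((2 ^ (k + 1) : ℕ) : ℝ) ≤ Real.log 4 * ((2 ^ (k + 1) : ℕ) : ℝ) :=
    Chebyshev.theta_le_log4_mul_x (by positivity)
  have h4 : Real.log 4 = 2 * Real.log 2 := by
    rw [show (4 : ℝ) = 2 ^ 2 by norm_num, Real.log_pow]
    norm_num
  calc ∑ p ∈ (Ioc (2 ^ k) (2 ^ (k + 1))).filter Nat.Prime, 1 / (p : ℝ)
      ≤ ∑ p ∈ (Ioc (2 ^ k) (2 ^ (k + 1))).filter Nat.Prime,
        Real.log p / (2 ^ k * (k * Real.log 2)) := sum_le_sum h1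
    _ = (∑ p ∈ (Ioc (2 ^ k) (2 ^ (k + 1))).filter Nat.Prime, Real.log p) /
        (2 ^ k * (k * Real.log 2)) := by rw [sum_div]
    _ ≤ (Real.log 4 * ((2 ^ (k + 1) : ℕ) : ℝ)) / (2 ^ k * (k * Real.log 2)) :=
        div_le_div_of_nonneg_right (h2.trans h3) hpos.le
    _ = 4 / k := by
        rw [h4]
        push_cast
        field_simp
        ring

lemma sum_succ_le (K : ℕ) :
    ∑ p ∈ (Ioc 0 (2 ^ (K + 1))).filter Nat.Prime, 1 / (p : ℝ) ≤
      ∑ p ∈ (Ioc 0 (2 ^ K)).filter Nat.Prime, 1 / (p : ℝ) +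
      ∑ p ∈ (Ioc (2 ^ K) (2 ^ (K + 1))).filter Nat.Prime, 1 / (p : ℝ) := by
  have h : (Ioc 0 (2 ^ (K + 1))).filter Nat.Prime =
      (Ioc 0 (2 ^ K)).filter Nat.Prime ∪ (Ioc (2 ^ K) (2 ^ (K + 1))).filter Nat.Prime := by
    rw [← filter_union]
    congr 1
    rw [Ioc_union_Ioc_eq_Ioc (Nat.zero_le _) (Nat.pow_le_pow_right (by norm_num) (Nat.le_succ _))]
  have hd : Disjoint ((Ioc 0 (2 ^ K)).filter Nat.Prime)
      ((Ioc (2 ^ K) (2 ^ (K + 1))).filter Nat.Prime) := by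
    rw [disjoint_left]
    intro p hp hp'
    rw [mem_filter, mem_Ioc] at hp hp'
    omega
  rw [h, sum_union hd]

/-- The sum of `1/p` over the primes up to `2^K`. -/
lemma sum_recip_le (k₀ : ℕ) (ε : ℝ) (hε : 0 < ε) (hk₀ : 4 / ε ≤ k₀) (K : ℕ) :
    ∑ p ∈ (Ioc 0 (2 ^ K)).filter Nat.Prime, 1 / (p : ℝ) ≤
      1 + 4 * (min K k₀ : ℕ) + ε * K := by
  induction K with
  | zero =>
    have : (Ioc 0 (2 ^ 0)).filter Nat.Prime = ∅ := by decide
    rw [this]
    simp
  | succ K ih =>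
    refine (sum_succ_le K).trans ?_
    rcases Nat.eq_zero_or_pos K with rfl | hK
    · have h1 : (Ioc 0 (2 ^ 0)).filter Nat.Prime = ∅ := by decide
      have h2 : (Ioc (2 ^ 0) (2 ^ (0 + 1))).filter Nat.Prime = {2} := by decide
      rw [h1, h2]
      have : (0 : ℝ) ≤ 4 * (min (0 + 1) k₀ : ℕ) := by positivity
      simp only [sum_empty, sum_singleton]
      push_cast
      push_cast at this
      nlinarith
    · have hb := block_le K hK
      have hK0 : (0 : ℝ) < K := by exact_mod_cast hK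
      rcases le_or_gt k₀ K with h | h
      · have h1 : 4 / (K : ℝ) ≤ ε := by
          have h2 : (k₀ : ℝ) ≤ K := by exact_mod_cast h
          rw [div_le_iff₀ hε] at hk₀
          rw [div_le_iff₀ hK0]
          nlinarith
        rw [min_eq_right h] at ih
        rw [min_eq_right (by omega)]
        push_cast
        linarith
      · have h1 : 4 / (K : ℝ) ≤ 4 := by
          rw [div_le_iff₀ hK0]
          have : (1 : ℝ) ≤ K := by exact_mod_cast hK
          linarith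
        rw [min_eq_left h.le] at ih
        rw [min_eq_left (by omega)]
        push_cast
        linarith

/-- MODULE U -/
theorem lemmaU (A : ℕ) : ∃ C : ℝ, 0 < C ∧ ∀ S : Finset ℕ, (∀ p ∈ S, p.Prime) →
    (∏ p ∈ S, (1 + 1 / (p : ℝ))) ^ A ≤ C * (1 + ∑ p ∈ S, 1 / Real.sqrt p) := by
  have hl2 : 0 < Real.log 2 := Real.log_pos (by norm_num)
  set ε : ℝ := Real.log 2 / (2 * (A + 1)) with hεdef
  have hA0 : (0 : ℝ) ≤ A := Nat.cast_nonneg A
  have hε : 0 < ε := by positivity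
  have hAε : A * ε ≤ Real.log 2 / 2 := by
    rw [hεdef, mul_div_assoc', div_le_div_iff₀ (by positivity) (by norm_num)]
    nlinarith
  set k₀ := ⌈4 / ε⌉₊ with hk₀def
  have hk₀ : 4 / ε ≤ k₀ := Nat.le_ceil _
  refine ⟨Real.exp (A * (2 + 4 * k₀)) * 2, by positivity, fun S hS => ?_⟩
  set s := ∑ p ∈ S, 1 / Real.sqrt p with hs
  have hs0 : 0 ≤ s := sum_nonneg fun p _ => by positivity
  set Y : ℝ := (1 + s) ^ 2 with hY
  have hY1 : 1 ≤ Y := by nlinarith
  have hfl : ⌊Y⌋₊ ≠ 0 := by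
    have := Nat.one_le_floor_iff _ |>.2 hY1
    omega
  set K := Nat.log 2 ⌊Y⌋₊ + 1 with hK
  have hK1 : Y < 2 ^ K := by
    have h1 : ⌊Y⌋₊ < 2 ^ K := Nat.lt_pow_succ_log_self (by norm_num) _
    have h2 := Nat.lt_of_floor_lt (n := 2 ^ K) h1
    exact_mod_cast h2
  have hK2 : (2 : ℝ) ^ K ≤ 2 * Y := by
    have h1 : 2 ^ (Nat.log 2 ⌊Y⌋₊) ≤ ⌊Y⌋₊ := Nat.pow_log_le_self 2 hfl
    have h2 : ((2 ^ (Nat.log 2 ⌊Y⌋₊) : ℕ) : ℝ) ≤ Y :=
      (by exact_mod_cast h1 : ((2 ^ (Nat.log 2 ⌊Y⌋₊) : ℕ) : ℝ) ≤ (⌊Y⌋₊ : ℝ)).trans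
        (Nat.floor_le (by linarith))
    rw [hK, pow_succ]
    push_cast at h2
    linarith
  -- the sum over `S`
  have hsum : ∑ p ∈ S, 1 / (p : ℝ) ≤ (1 + 4 * k₀ + ε * K) + 1 := by
    rw [← sum_filter_add_sum_filter_not S (fun p : ℕ => (p : ℝ) ≤ Y)]
    apply add_le_add
    · calc ∑ p ∈ S.filter (fun p : ℕ => (p : ℝ) ≤ Y), 1 / (p : ℝ)
          ≤ ∑ p ∈ (Ioc 0 (2 ^ K)).filter Nat.Prime, 1 / (p : ℝ) := by
            apply sum_le_sum_of_subset_of_nonneg
            · intro p hp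
              rw [mem_filter] at hp
              rw [mem_filter, mem_Ioc]
              refine ⟨⟨(hS p hp.1).pos, ?_⟩, hS p hp.1⟩
              have := hp.2.trans hK1.le
              exact_mod_cast this
            · intro p _ _
              positivity
        _ ≤ 1 + 4 * (min K k₀ : ℕ) + ε * K := sum_recip_le k₀ ε hε hk₀ K
        _ ≤ 1 + 4 * k₀ + ε * K := by
            have : ((min K k₀ : ℕ) : ℝ) ≤ k₀ := by exact_mod_cast min_le_right _ _
            linarith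
    · have h1 : ∀ p ∈ S.filter (fun p : ℕ => ¬ (p : ℝ) ≤ Y), 1 / (p : ℝ) ≤
          1 / (1 + s) * (1 / Real.sqrt p) := by
        intro p hp
        rw [mem_filter, not_le] at hp
        have hp0 : (0 : ℝ) < p := by linarith [hp.2]
        have hsq : 0 < Real.sqrt p := Real.sqrt_pos.2 hp0
        have h2 : 1 + s ≤ Real.sqrt p := by
          apply Real.le_sqrt_of_sq_le
          exact hp.2.le
        have h3 : (p : ℝ) = Real.sqrt p * Real.sqrt p := (Real.mul_self_sqrt hp0.le).symm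
        rw [div_mul_div_comm, one_mul, div_le_div_iff₀ hp0 (by positivity), one_mul, one_mul]
        calc (1 + s) * Real.sqrt p ≤ Real.sqrt p * Real.sqrt p :=
              mul_le_mul_of_nonneg_right h2 hsq.le
          _ = p := h3.symm
      calc ∑ p ∈ S.filter (fun p : ℕ => ¬ (p : ℝ) ≤ Y), 1 / (p : ℝ)
          ≤ ∑ p ∈ S.filter (fun p : ℕ => ¬ (p : ℝ) ≤ Y), 1 / (1 + s) * (1 / Real.sqrt p) :=
            sum_le_sum h1
        _ = 1 / (1 + s) * ∑ p ∈ S.filter (fun p : ℕ => ¬ (p : ℝ) ≤ Y), 1 / Real.sqrt p := by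
            rw [mul_sum]
        _ ≤ 1 / (1 + s) * s := by
            apply mul_le_mul_of_nonneg_left _ (by positivity)
            exact sum_le_sum_of_subset_of_nonneg (filter_subset _ _) fun p _ _ => by positivity
        _ ≤ 1 := by
            rw [one_div, inv_mul_le_iff₀ (by linarith)]
            linarith
  have hprod : ∏ p ∈ S, (1 + 1 / (p : ℝ)) ≤ Real.exp (∑ p ∈ S, 1 / (p : ℝ)) := by
    rw [Real.exp_sum]
    apply prod_le_prod
    · intro p _
      positivity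
    · intro p _
      rw [add_comm]
      exact Real.add_one_le_exp _
  have hprod0 : 0 ≤ ∏ p ∈ S, (1 + 1 / (p : ℝ)) := prod_nonneg fun p _ => by positivity
  -- the exponential of `K log 2 / 2`
  set E := Real.exp (K * (Real.log 2 / 2)) with hE
  have hE0 : 0 < E := Real.exp_pos _
  have hE2 : E ^ 2 = 2 ^ K := by
    rw [hE, ← Real.exp_nat_mul]
    rw [show ((2 : ℕ) : ℝ) * (K * (Real.log 2 / 2)) = K * Real.log 2 by push_cast; ring]
    rw [Real.exp_nat_mul, Real.exp_log (by norm_num)]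
  have hE3 : E ≤ 2 * (1 + s) := by
    apply le_of_sq_le_sq _ (by linarith)
    rw [hE2]
    nlinarith
  calc (∏ p ∈ S, (1 + 1 / (p : ℝ))) ^ A
      ≤ (Real.exp (∑ p ∈ S, 1 / (p : ℝ))) ^ A := pow_le_pow_left₀ hprod0 hprod A
    _ = Real.exp (A * ∑ p ∈ S, 1 / (p : ℝ)) := by rw [Real.exp_nat_mul]
    _ ≤ Real.exp (A * (2 + 4 * k₀) + K * (Real.log 2 / 2)) := by
        apply Real.exp_le_exp.2
        have h1 : A * ∑ p ∈ S, 1 / (p : ℝ) ≤ A * ((1 + 4 * k₀ + ε * K) + 1) :=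
          mul_le_mul_of_nonneg_left hsum hA0
        have h2 : (A * ε) * K ≤ (Real.log 2 / 2) * K :=
          mul_le_mul_of_nonneg_right hAε (Nat.cast_nonneg _)
        nlinarith
    _ = Real.exp (A * (2 + 4 * k₀)) * E := by rw [Real.exp_add]
    _ ≤ Real.exp (A * (2 + 4 * k₀)) * (2 * (1 + s)) :=
        mul_le_mul_of_nonneg_left hE3 (Real.exp_pos _).le
    _ = Real.exp (A * (2 + 4 * k₀)) * 2 * (1 + s) := by ring

end Pool.Agent.H5.W
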